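import Pool.Agent.N166.CZ.Stm

set_option autoImplicit false

/-!
# Project QF (helper197): leaf QG/G3, main part
-/

namespace Pool.Agent.N42.QF.G3a

open Matrix Pool.Agent.N166.CZ Pool.Agent.H204R3.GP

/-- the alternating map of a bilinear map -/
def altOf {k W M : Type} [Field k] [AddCommGroup W] [Module k W] [AddCommGroup M] [Module k M]
    (B : W →ₗ[k] W →ₗ[k] M) (h : ∀ u, B u u = 0) : W [⋀^Fin 1 × Fin 2]→ₗ[k] M where
  toFun v := B (v (0, 0)) (v (0, 1))
  map_update_add' := by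
    intro _ v j x y
    obtain ⟨a, b⟩ := j
    fin_cases a
    fin_cases b <;> simp [Function.update]
  map_update_smul' := by
    intro _ v j c x
    obtain ⟨a, b⟩ := j
    fin_cases a
    fin_cases b <;> simp [Function.update]
  map_eq_zero_of_eq' := by
    intro v i j hij hne
    obtain ⟨a, b⟩ := i
    obtain ⟨a', b'⟩ := j
    fin_cases a
    fin_cases a'
    fin_cases b <;> fin_cases b'
    · exact absurd rfl hne
    · simp only [Fin.zero_eta, Fin.isValue, Fin.mk_one] at hij ⊢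
      rw [hij]
      exact h _
    · simp only [Fin.zero_eta, Fin.isValue, Fin.mk_one] at hij ⊢
      rw [hij]
      exact h _
    · exact absurd rfl hne

theorem altOf_apply {k W M : Type} [Field k] [AddCommGroup W] [Module k W] [AddCommGroup M]
    [Module k M] (B : W →ₗ[k] W →ₗ[k] M) (h : ∀ u, B u u = 0) (v : Fin 1 × Fin 2 → W) :
    altOf B h v = B (v (0, 0)) (v (0, 1)) := rfl

variable {k : Type} [Field k] {n : ℕ}

/-- the quadratic map to the Lie algebra -/
def bb (J : Matrix (Fin n) (Fin n) k) (x y : Fin n → k) : Matrix (Fin n) (Fin n) k :=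
  vecMulVec x (J *ᵥ y) + vecMulVec y (J *ᵥ x)

theorem bb_lie (J : Matrix (Fin n) (Fin n) k) (hJ : Jᵀ = -J) (x y : Fin n → k) :
    (bb J x y)ᵀ * J + J * bb J x y = 0 := by
  have h : ∀ z : Fin n → k, z ᵥ* J = -(J *ᵥ z) := by
    intro z
    rw [← mulVec_transpose, hJ, neg_mulVec]
  unfold bb
  rw [transpose_add, transpose_vecMulVec, transpose_vecMulVec, Matrix.add_mul, Matrix.mul_add,
    vecMulVec_mul, vecMulVec_mul, mul_vecMulVec, mul_vecMulVec, h, h]
  ext a b
  simp only [Matrix.add_apply, vecMulVec_apply, Pi.neg_apply, Matrix.zero_apply]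
  ring

theorem bb_conj (J R R' : Matrix (Fin n) (Fin n) k) (c c' : k) (hcc : c' * c = 1)
    (hR : R' * R = 1) (hJ : Rᵀ * J * R = c • J) (x y : Fin n → k) :
    R * bb J x y * R' = c' • bb J (R *ᵥ x) (R *ᵥ y) := by
  have hR2 : R * R' = 1 := mul_eq_one_comm.1 hR
  have h1 : J * R = c • (R'ᵀ * J) := by
    have : R'ᵀ * (Rᵀ * J * R) = R'ᵀ * (c • J) := by rw [hJ]
    rw [← Matrix.mul_assoc, ← Matrix.mul_assoc, ← transpose_mul, hR2, transpose_one,
      Matrix.one_mul, Matrix.mul_smul] at this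
    exact this
  have h2 : ∀ z : Fin n → k, (J *ᵥ z) ᵥ* R' = c' • (J *ᵥ (R *ᵥ z)) := by
    intro z
    rw [mulVec_mulVec, h1, ← mulVec_transpose, smul_mulVec, smul_smul, hcc, one_smul,
      mulVec_mulVec]
  unfold bb
  rw [Matrix.mul_add, Matrix.add_mul, mul_vecMulVec, mul_vecMulVec, vecMulVec_mul, vecMulVec_mul,
    h2, h2, smul_add]
  ext a b
  simp only [Matrix.add_apply, vecMulVec_apply, Pi.smul_apply, Matrix.smul_apply, smul_eq_mul]
  ring

theorem G3a (k : Type) [Field k] [CharZero k] (G : Type) [Group G] (ι : Type) [Fintype ι]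
    [DecidableEq ι] (N : ι → ℕ) (r : ∀ i, G →* Matrix (Fin (N i)) (Fin (N i)) k)
    (J : ∀ i, Matrix (Fin (N i)) (Fin (N i)) k) (χ : G →* k) (i : ι) (w : ℤ) (h0 : 0 < N i)
    (hJ : (J i)ᵀ = -J i) (hd : (J i).det ≠ 0) (hr : ∀ g, (r i g)ᵀ * J i * r i g = χ g • J i)
    (hT : ∀ T : Matrix (Fin (N i)) (Fin (N i)) k,
      (∃ Δ : Subgroup G, Δ.FiniteIndex ∧ ∀ g ∈ Δ, T * r i g = r i g * T) → ∃ c : k, T = c • 1)
    (M : Type) [AddCommGroup M] [Module k M] (s : Representation k G M)
    (emb : M →ₗ[k] Matrix (Fin (N i)) (Fin (N i)) k) (hinj : Function.Injective emb)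
    (hemb : ∀ Z, (∃ m, emb m = Z) ↔ Zᵀ * J i + J i * Z = 0)
    (hs : ∀ g m, emb (s g m) = χ g ^ (-w) • (r i g * emb m * r i g⁻¹))
    (ρ : Representation k G (∀ i, Fin (N i) → k)) (hρ : ∀ g x j, ρ g x j = r j g *ᵥ (x j)) :
    ¬ ProductsWith ρ χ s := by
  intro hP
  have hχ : ∀ g, χ g⁻¹ * χ g = 1 := by
    intro g
    rw [← map_mul, inv_mul_cancel, map_one]
  have hχ0 : ∀ g, χ g ≠ 0 := fun g h => by
    have := hχ g
    rw [h, mul_zero] at this
    exact zero_ne_one this
  have hri : ∀ g, r i g⁻¹ * r i g = 1 := by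
    intro g
    rw [← map_mul, inv_mul_cancel, map_one]
  obtain ⟨p, hp⟩ := emb.exists_leftInverse_of_injective (LinearMap.ker_eq_bot.2 hinj)
  have hp' : ∀ z, p (emb z) = z := fun z => LinearMap.congr_fun hp z
  let m : (Fin (N i) → k) →ₗ[k] (Fin (N i) → k) →ₗ[k] M :=
    LinearMap.mk₂ k (fun x y => p (bb (J i) x y))
      (by
        intro x x' y
        rw [← map_add]
        congr 1
        ext a b
        simp only [bb, Matrix.add_apply, vecMulVec_apply, mulVec_add, Pi.add_apply]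
        ring)
      (by
        intro c x y
        rw [← map_smul]
        congr 1
        ext a b
        simp only [bb, Matrix.add_apply, vecMulVec_apply, mulVec_smul, Pi.smul_apply, Matrix.smul_apply,
          smul_eq_mul]
        ring)
      (by
        intro x y y'
        rw [← map_add]
        congr 1
        ext a b
        simp only [bb, Matrix.add_apply, vecMulVec_apply, mulVec_add, Pi.add_apply]
        ring)
      (by
        intro c x y
        rw [← map_smul]
        congr 1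
        ext a b
        simp only [bb, Matrix.add_apply, vecMulVec_apply, mulVec_smul, Pi.smul_apply, Matrix.smul_apply,
          smul_eq_mul]
        ring)
  have hm : ∀ x y, emb (m x y) = bb (J i) x y := by
    intro x y
    obtain ⟨z, hz⟩ := (hemb (bb (J i) x y)).2 (bb_lie (J i) hJ x y)
    show emb (p (bb (J i) x y)) = bb (J i) x y
    rw [← hz, hp']
  have hmg : ∀ g x y, m (r i g *ᵥ x) (r i g *ᵥ y) = χ g ^ (1 + w) • s g (m x y) := by
    intro g x y
    apply hinj
    rw [map_smul, hs, hm, hm, smul_smul, bb_conj (J i) (r i g) (r i g⁻¹) (χ g) (χ g⁻¹) (hχ g)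
      (hri g) (hr g), smul_smul]
    have : χ g ^ (1 + w) * χ g ^ (-w) * χ g⁻¹ = 1 := by
      rw [← zpow_add₀ (hχ0 g), add_neg_cancel_right, zpow_one, mul_comm, hχ]
    rw [this, one_smul]
  let pr : Fin 2 → ((Fin 2 → ∀ j, Fin (N j) → k) →ₗ[k] (Fin (N i) → k)) := fun t =>
    (LinearMap.proj (R := k) (φ := fun j => Fin (N j) → k) i).comp
      (LinearMap.proj (R := k) (φ := fun _ : Fin 2 => ∀ j, Fin (N j) → k) t)
  let A : (Fin 2 → ∀ j, Fin (N j) → k) →ₗ[k] (Fin 2 → ∀ j, Fin (N j) → k) →ₗ[k] M :=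
    m.compl₁₂ (pr 0) (pr 1)
  let B : (Fin 2 → ∀ j, Fin (N j) → k) →ₗ[k] (Fin 2 → ∀ j, Fin (N j) → k) →ₗ[k] M :=
    A - A.flip
  have hB : ∀ u v, B u v = m (u 0 i) (v 1 i) - m (v 0 i) (u 1 i) := fun u v => rfl
  have hBB : ∀ u, B u u = 0 := by
    intro u
    rw [hB, sub_self]
  have hTate : IsTateMap ρ χ s (1 + w) (altOf B hBB) := by
    refine ⟨⊤, inferInstance, ?_⟩
    intro g _ v
    rw [altOf_apply, altOf_apply, hB, hB]
    rw [hρ, hρ, hρ, hρ, hmg, hmg, map_sub, smul_sub]
  have hspan := (hP 2 1 (1 + w)).1 (altOf B hBB) hTate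
  have hz : ∀ z : M, IsTateVector χ s (1 + w - ((1 : ℕ) : ℤ)) z → z = 0 := by
    rintro z ⟨Δ, hΔ, hz⟩
    have h1 : ∀ g ∈ Δ, emb z * r i g = r i g * emb z := by
      intro g hg
      have h2 := congrArg emb (hz g hg)
      rw [map_smul, hs, smul_smul, ← zpow_add₀ (hχ0 g)] at h2
      have h3 : 1 + w - ((1 : ℕ) : ℤ) + -w = 0 := by push_cast; ring
      rw [h3, zpow_zero, one_smul] at h2
      have h4 : (r i g * emb z * r i g⁻¹) * r i g = r i g * emb z := by
        rw [Matrix.mul_assoc, hri, Matrix.mul_one]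
      rw [h2] at h4
      exact h4
    obtain ⟨c, hc⟩ := hT (emb z) ⟨Δ, hΔ, h1⟩
    have h5 := (hemb (emb z)).1 ⟨z, rfl⟩
    rw [hc, transpose_smul, transpose_one, Matrix.smul_mul, Matrix.mul_smul, Matrix.one_mul,
      Matrix.mul_one, ← add_smul, smul_eq_zero] at h5
    have hc0 : c = 0 := by
      rcases h5 with h5 | h5
      · exact self_eq_neg.1 (eq_neg_of_add_eq_zero_left h5)
      · exfalso
        apply hd
        rw [h5]
        haveI : Nonempty (Fin (N i)) := ⟨⟨0, h0⟩⟩
        exact det_zero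
    apply hinj
    rw [hc, hc0, zero_smul, map_zero]
  have hf : altOf B hBB = 0 := by
    have hle : Submodule.span k {g | ∃ (B : Fin 1 → (Fin 2 → ∀ j, Fin (N j) → k) [⋀^Fin 2]→ₗ[k] k)
        (z : M), (∀ l, IsTateClass ρ χ 1 (B l)) ∧ IsTateVector χ s (1 + w - ((1 : ℕ) : ℤ)) z ∧
          IsProduct B z g} ≤ ⊥ := by
      rw [Submodule.span_le]
      rintro g ⟨B', z, -, hz', hg⟩
      rw [hz z hz'] at hg
      show g = 0
      ext v
      rw [hg v, smul_zero]
      rfl
    exact (Submodule.mem_bot k).1 (hle hspan)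
  have hmm : ∀ x, m x x = 0 := by
    intro x
    let v : Fin 1 × Fin 2 → Fin 2 → ∀ j, Fin (N j) → k := fun l t =>
      if t = l.2 then Pi.single i x else 0
    have h1 : altOf B hBB v = 0 := by rw [hf]; rfl
    rw [altOf_apply, hB] at h1
    simp only [v, if_true, Pi.single_eq_same] at h1
    simpa using h1
  have hJ0 : J i = 0 := by
    ext b a
    have h1 := congrArg emb (hmm (Pi.single a 1))
    rw [hm, map_zero] at h1
    have h2 := congrFun (congrFun h1 a) b
    simp only [bb, Matrix.add_apply, vecMulVec_apply, mulVec_single_one, Pi.single_eq_same, col_apply,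
      Matrix.zero_apply, one_mul] at h2
    exact self_eq_neg.1 (eq_neg_of_add_eq_zero_left h2)
  apply hd
  rw [hJ0]
  haveI : Nonempty (Fin (N i)) := ⟨⟨0, h0⟩⟩
  exact det_zero

end Pool.Agent.N42.QF.G3a
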